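import Pool.Agent.Helper78.DT.Goals2

/-!
# Packet DT-PA3 (project DT of helper78, MP_34c247_lc)
-/

set_option autoImplicit false

namespace Pool.Agent.Helper5.DT

open Pool.Agent.Helper78.DT

/-- the comparison of the exponents -/
theorem pa3_exp (B c C t : ℕ) (hB : B = (c + 6) * C) (ht : B + 6 ≤ t) :
    9 + c * C * (t + 1) + (B * (t + 1) + 3) * t ≤ 2 * 2 ^ (4 * t) := by
  have h1 : t + 1 ≤ 2 ^ t := Nat.lt_two_pow_self
  have h2 : (t + 1) ^ 2 ≤ (2 ^ t) ^ 2 := Nat.pow_le_pow_left h1 2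
  have h3 : c * C ≤ B := by
    rw [hB]
    exact Nat.mul_le_mul_right C (by omega)
  have h4 : (2 : ℕ) ^ (4 * t) = (2 ^ t) ^ 2 * (2 ^ t) ^ 2 := by
    rw [← pow_mul, ← pow_add]
    congr 1
    ring
  have h5 : B + 6 ≤ (2 ^ t) ^ 2 := by
    calc B + 6 ≤ 2 ^ t := by omega
      _ ≤ (2 ^ t) ^ 2 := by
        rw [pow_two]
        exact Nat.le_mul_of_pos_left _ (by positivity)
  calc 9 + c * C * (t + 1) + (B * (t + 1) + 3) * t
      ≤ 9 + B * (t + 1) + (B * (t + 1) + 3) * t := by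
        have := Nat.mul_le_mul_right (t + 1) h3
        omega
    _ ≤ 2 * ((B + 6) * (t + 1) ^ 2) := by nlinarith
    _ ≤ 2 * ((2 ^ t) ^ 2 * (2 ^ t) ^ 2) :=
        Nat.mul_le_mul_left 2 (Nat.mul_le_mul h5 h2)
    _ = 2 * 2 ^ (4 * t) := by rw [h4]

/-- the estimate in the natural numbers -/
theorem pa3_nat (c a L P t s k : ℕ) (hL : L < 2 ^ ((2 * a + 9) * (t + 1)))
    (hP : P ≤ 2 * L ^ (c + 6)) (ht : (c + 6) * (2 * a + 9) + 6 ≤ t) (hs : 1 ≤ s)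
    (hk : k = 2 ^ (4 * t) * s) :
    2 * (2 * (2 * P + 1) ^ t + 1) ^ s * (64 * L ^ c) ≤ 4 ^ k := by
  obtain ⟨C, hC⟩ : ∃ C, C = 2 * a + 9 := ⟨_, rfl⟩
  rw [← hC] at hL ht
  obtain ⟨B, hB⟩ : ∃ B, B = (c + 6) * C := ⟨_, rfl⟩
  rw [← hB] at ht
  have h1 : L ^ (c + 6) ≤ 2 ^ (B * (t + 1)) := by
    calc L ^ (c + 6) ≤ (2 ^ (C * (t + 1))) ^ (c + 6) := Nat.pow_le_pow_left hL.le _
      _ = 2 ^ (B * (t + 1)) := by
        rw [← pow_mul, hB]
        congr 1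
        ring
  have h1' : L ^ c ≤ 2 ^ (c * C * (t + 1)) := by
    calc L ^ c ≤ (2 ^ (C * (t + 1))) ^ c := Nat.pow_le_pow_left hL.le _
      _ = 2 ^ (c * C * (t + 1)) := by
        rw [← pow_mul]
        congr 1
        ring
  have h2 : 2 * P + 1 ≤ 2 ^ (B * (t + 1) + 3) := by
    have h3 : 1 ≤ 2 ^ (B * (t + 1)) := Nat.one_le_two_pow
    rw [pow_add]
    omega
  have h3 : 2 * (2 * P + 1) ^ t + 1 ≤ 2 ^ ((B * (t + 1) + 3) * t + 2) := by
    have h4 : (2 * P + 1) ^ t ≤ 2 ^ ((B * (t + 1) + 3) * t) := by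
      rw [pow_mul]
      exact Nat.pow_le_pow_left h2 t
    have h5 : 1 ≤ 2 ^ ((B * (t + 1) + 3) * t) := Nat.one_le_two_pow
    rw [pow_add]
    omega
  have h4 : (2 * (2 * P + 1) ^ t + 1) ^ s ≤ 2 ^ (((B * (t + 1) + 3) * t + 2) * s) := by
    rw [pow_mul]
    exact Nat.pow_le_pow_left h3 s
  have h5 : 2 * (2 * (2 * P + 1) ^ t + 1) ^ s * (64 * L ^ c) ≤
      2 ^ (1 + ((B * (t + 1) + 3) * t + 2) * s + (6 + c * C * (t + 1))) := by
    rw [pow_add, pow_add, pow_add 2 6]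
    exact Nat.mul_le_mul (Nat.mul_le_mul (by norm_num) h4) (Nat.mul_le_mul (by norm_num) h1')
  have h6 := pa3_exp B c C t hB ht
  have h7 : 1 + ((B * (t + 1) + 3) * t + 2) * s + (6 + c * C * (t + 1)) ≤ 2 * k := by
    rw [hk]
    calc 1 + ((B * (t + 1) + 3) * t + 2) * s + (6 + c * C * (t + 1))
        = ((B * (t + 1) + 3) * t + 2) * s + (7 + c * C * (t + 1)) * 1 := by ring
      _ ≤ ((B * (t + 1) + 3) * t + 2) * s + (7 + c * C * (t + 1)) * s :=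
          Nat.add_le_add_left (Nat.mul_le_mul_left _ hs) _
      _ = (9 + c * C * (t + 1) + (B * (t + 1) + 3) * t) * s := by ring
      _ ≤ (2 * 2 ^ (4 * t)) * s := Nat.mul_le_mul_right s h6
      _ = 2 * (2 ^ (4 * t) * s) := by ring
  calc 2 * (2 * (2 * P + 1) ^ t + 1) ^ s * (64 * L ^ c)
      ≤ 2 ^ (1 + ((B * (t + 1) + 3) * t + 2) * s + (6 + c * C * (t + 1))) := h5
    _ ≤ 2 ^ (2 * k) := Nat.pow_le_pow_right (by norm_num) h7
    _ = 4 ^ k := by rw [pow_mul]; norm_num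

theorem pa3 (hTll : TllStmt) (hNpr : NprStmt) : Pa3Stmt := by
  intro c a
  obtain ⟨hT1, hT2⟩ := hTll a
  obtain ⟨L0, hL0⟩ := hT2 ((c + 6) * (2 * a + 9) + 6)
  refine ⟨max L0 1, fun L hL => ?_⟩
  have hL1 : 1 ≤ L := le_trans (le_max_right _ _) hL
  have ht := hL0 L (le_trans (le_max_left _ _) hL)
  have hLt := (hT1 L hL1).2
  have hP : PP c L ≤ 2 * L ^ (c + 6) := (hNpr (L ^ (c + 6)) (by positivity)).2.2
  have hs : 1 ≤ sp a L := Nat.one_le_two_pow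
  have hk : kp a L = 2 ^ (4 * tt a L) * sp a L := by
    unfold kp sp
    rw [← pow_add]
    congr 1
    ring
  have key := pa3_nat c a L (PP c L) (tt a L) (sp a L) (kp a L) hLt hP ht hs hk
  have key' : (2 : ℝ) * (2 * (2 * (PP c L : ℝ) + 1) ^ tt a L + 1) ^ sp a L *
      (64 * (L : ℝ) ^ c) ≤ 4 ^ kp a L := by exact_mod_cast key
  have hLr : (0 : ℝ) < (L : ℝ) := by exact_mod_cast hL1
  rw [one_div_pow, ← div_eq_mul_one_div, div_le_div_iff₀ (by positivity) (by positivity), one_mul]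
  exact key'

end Pool.Agent.Helper5.DT
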